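import Pool.Agent.U553.DL.Cor
import Pool.Agent.U553.DL.Glob
import Pool.Agent.H340R2.LW

/-!
# Zeta values at large arguments over arbitrary constants: `t` constants cost at most `t` zeta values

Let `x_1, ..., x_t` be arbitrary complex numbers, for instance `π`, `e`, `γ`, or some zeta values, and let `C`, `D`, `κ`, `m` be
arbitrary. We consider polynomial relations of degree at most `D` with integer coefficients of absolute value at most `C ^ N`
between `x_1, ..., x_t`, finitely many fixed algebraic numbers, and values `ζ(s)` at arguments `s` in `[N, κ N]` (for instance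
odd ones). Let `N` be large, uniformly in the `x_i`, which may depend on `N`.

(1) There is a set `T` of at most `t` exceptional arguments in `[N, κ N]` (in all, for all relations between any number of
values up to `m + 1`) such that for every other argument `s` the number `ζ(s)` is not algebraic over the `x_i` and at most
`m` zeta values which come before `ζ(s)`: each relation between these numbers and `ζ(s)` is trivial in `ζ(s)`, it holds for
all complex numbers in place of `ζ(s)`. The zeta values which come before `ζ(s)` may be exceptional themselves; the order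
can be prescribed (increasing, decreasing, or any other). In particular any `m + 1` zeta values with arguments outside `T`
satisfy only trivial relations over the `x_i`: the family of all zeta values of `[N, κ N]` loses at most `t` elements
over `ℚ(x_1, ..., x_t)`, as it would if the zeta values were algebraically independent over `ℚ`.

(2) If the `x_i` are algebraically independent over `ℚ`, for instance `t = 1` and `x_1 = π`, then the `x_i` and any `m + 1` zeta
values with arguments outside `T` satisfy no nonzero relation. So there is at most one exceptional argument in `[N, κ N]` for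
`π` (and at most three for `π, e ^ π, Γ(1/4)`, by Nesterenko's theorem).

(3) The number `t` is optimal for all `t` and all sets of arguments.

(4) The bounds for `m`, `D`, `κ`, `C` and `t` may grow with `N`: all of them may be replaced by a function `ω(N) → ∞`.

The case `t = 0` (no constants, no exceptions) is close to the starting library (`Pool.Agent.X90.DB.pure_zero`, linear
independence of multiple zeta values with large first arguments, by the subspace theorem). For `t > 0` the starting library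
has bounds for the number of exceptional tuples (`K N ^ (k - 1)` of `N ^ k` tuples). The starting
results of this page and `PiAndLargeZetaValues` treat `π` for `C` close to one and `s_i` near fixed multiples of `N`. The proof:
the germs of sequences of integers of exponential growth, modulo a nonprincipal ultrafilter on the scales, form a ring `A` of
numbers of exponential height; the theorem without constants says that the germs of the zeta values are algebraically
independent over `A`; the constants are any `t` elements of the ultrapower of `ℂ`, and if `t + 1` zeta values were algebraic over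
the constants and the values before them, the transcendence degree would be too small. Polynomials are then treated one
variable at a time.
-/

set_option autoImplicit false

namespace Pool.Agent.Results.MP_a89d6d_nt.DeletionOverConstants

open Pool.Agent.U553.DL

/-- `ζ(s) = ∑_{m ≥ 1} 1 / m ^ s` -/
noncomputable def zeta (s : ℕ) : ℝ := ∑' m : ℕ, 1 / ((m : ℝ) + 1) ^ s

/-- Every polynomial relation, of degree at most `D` and with integer coefficients of absolute value at most `H`, between the
numbers `u_i` and the zeta values `ζ(s)`, `s ∈ S`, is trivial: it remains true if the `ζ(s)` are replaced by arbitrary complex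
numbers. -/
def Independent {σ : Type} (u : σ → ℂ) (S : Finset ℕ) (D : ℕ) (H : ℝ) : Prop :=
  ∀ P : MvPolynomial (σ ⊕ S) ℤ, P.totalDegree ≤ D → (∀ m, |((P.coeff m : ℤ) : ℝ)| ≤ H) →
    MvPolynomial.aeval (Sum.elim u fun s : S => ((zeta s : ℝ) : ℂ)) P = 0 →
    ∀ y : S → ℂ, MvPolynomial.aeval (Sum.elim u y) P = 0

/-- There is a polynomial relation, of degree at most `D` and with integer coefficients of absolute value at most `H`, between
`ζ(s)`, the numbers `u_i` and the zeta values `ζ(k)`, `k ∈ Λ`, which is not trivial in `ζ(s)`: it fails for some complex number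
`y` in place of `ζ(s)`. -/
def Algebraic {σ : Type} (u : σ → ℂ) (Λ : Finset ℕ) (s : ℕ) (D : ℕ) (H : ℝ) : Prop :=
  ∃ P : MvPolynomial (Option (σ ⊕ Λ)) ℤ, P.totalDegree ≤ D ∧ (∀ m, |((P.coeff m : ℤ) : ℝ)| ≤ H) ∧
    MvPolynomial.aeval (fun o => o.elim ((zeta s : ℝ) : ℂ) (Sum.elim u fun k : Λ => ((zeta k : ℝ) : ℂ))) P = 0 ∧
    ∃ y : ℂ, MvPolynomial.aeval (fun o => o.elim y (Sum.elim u fun k : Λ => ((zeta k : ℝ) : ℂ))) P ≠ 0

lemma mz_eq (s : ℕ) : Pool.Agent.Y760.ZG.mz [s] = zeta s := by
  rw [Pool.Agent.Y760.ZG.mz, zeta]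
  refine tsum_congr fun m => ?_
  rw [Pool.Agent.Y760.ZG.hr_nil]
  push_cast
  rfl

lemma independent_iff {σ : Type} (u : σ → ℂ) (S : Finset ℕ) (D : ℕ) (H : ℝ) :
    Independent u S D H ↔ IndX u (fun s => ((Pool.Agent.Y760.ZG.mz [s] : ℝ) : ℂ)) S D H := by
  unfold Independent IndX
  simp only [mz_eq]

lemma algebraic_iff {σ : Type} (u : σ → ℂ) (Λ : Finset ℕ) (s : ℕ) (D : ℕ) (H : ℝ) :
    Algebraic u Λ s D H ↔ DepX u (fun s => ((Pool.Agent.Y760.ZG.mz [s] : ℝ) : ℂ)) Λ s D H := by
  unfold Algebraic DepX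
  simp only [mz_eq]

lemma pi_indep : AlgebraicIndependent ℤ (fun _ : Fin 1 => ((Real.pi : ℝ) : ℂ)) := by
  have h1 : Transcendental ℤ ((Real.pi : ℝ) : ℂ) := fun h =>
    Pool.Agent.H340R2.LW.transcendental_pi_complex (h.extendScalars (RingHom.injective_int _))
  exact (algebraicIndependent_unique_type_iff (R := ℤ) (x := fun _ : Fin 1 => ((Real.pi : ℝ) : ℂ))).2 h1

/-- the main theorem in terms of the library -/
theorem main (m κ a t D : ℕ) (C : ℝ) (α : Fin a → ℂ) (hα : ∀ i, IsAlgebraic ℤ (α i)) : ∃ N₀ : ℕ, ∀ N : ℕ, N₀ ≤ N →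
    ∀ (r : ℕ → ℕ), Function.Injective r → ∀ x : Fin t → ℂ, ∃ T : Finset ℕ, T ⊆ Finset.Icc N (κ * N) ∧ T.card ≤ t ∧
      (∀ s ∈ Finset.Icc N (κ * N), s ∉ T → ∀ Λ : Finset ℕ, Λ ⊆ Finset.Icc N (κ * N) → Λ.card ≤ m →
        (∀ k ∈ Λ, r k < r s) → ¬ Algebraic (Sum.elim α x) Λ s D (C ^ N)) ∧
      ∀ S : Finset ℕ, S ⊆ Finset.Icc N (κ * N) → S.card ≤ m + 1 → Disjoint S T →
        Independent (Sum.elim α x) S D (C ^ N) := by
  obtain ⟨N₀, h0⟩ := globW m 1 κ a t D C α hα
  refine ⟨N₀ + 2, fun N hN r hr x => ?_⟩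
  obtain ⟨T, h1, h2, h3, h4⟩ := @h0 N (by omega) ℕ (LinearOrder.lift' r hr) (fun s => [s]) (Finset.Icc N (κ * N))
    (fun s hs => by
      rw [Finset.mem_Icc] at hs
      refine ⟨le_refl 1, fun m hm => ?_, fun k hk => ?_⟩
      · rw [List.mem_singleton] at hm
        subst hm
        exact ⟨by omega, by exact_mod_cast hs.2⟩
      · rw [List.head?_cons, Option.mem_some_iff] at hk
        subst hk
        exact hs.1)
    (fun s hs => by
      rw [Finset.mem_Icc] at hs
      exact ⟨by omega, fun t ht => absurd ht List.not_mem_nil⟩)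
    (fun k s hs hmem => FI_one hs fun i => by
      have := Finset.mem_Icc.1 (hmem i)
      omega) x
  refine ⟨T, h1, h2, fun s hs hsT Λ hΛ hΛc hr' hA => ?_, fun S hS hSc hST => ?_⟩
  · exact h3 s hs hsT Λ hΛ hΛc hr' ((algebraic_iff _ _ _ _ _).1 hA)
  · exact (independent_iff _ _ _ _).2 (h4 S hS hSc hST)

/-- **Theorem.** Constants are `a` fixed algebraic numbers `α_i` and `t` arbitrary complex numbers `x_j`; relations have degree
at most `D` and height at most `C ^ N`, and `N` is large. The arguments in `[N, κ N]` are ordered by any injective function `r`.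
(1) There are at most `t` exceptional arguments. If `s` is not exceptional, then `ζ(s)` is not algebraic over the constants and
at most `m` values `ζ(k)` with `r k < r s`. The values `ζ(s)`, `s ∈ S`, are independent over the constants for all
sets `S` of at most `m + 1` arguments which are not exceptional.
(2) If the constants are algebraically independent, then they and the `ζ(s)`, `s ∈ S`, satisfy no nonzero relation, for all
sets `S` of at most `m + 1` arguments which are not exceptional, where at most `t` arguments are exceptional; in particular,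
for `π` at most one argument is exceptional.
(3) For every finite set `S` of arguments and `t ≤ |S|` there are `t` constants such that `t` elements of `S` are exceptional.
(4) All the bounds can be replaced by a function of `N` which tends to infinity. -/
theorem result :
    (∀ (m κ a t D : ℕ) (C : ℝ) (α : Fin a → ℂ), (∀ i, IsAlgebraic ℚ (α i)) → ∃ N₀ : ℕ, ∀ N : ℕ, N₀ ≤ N →
      ∀ r : ℕ → ℕ, Function.Injective r → ∀ x : Fin t → ℂ,
      ∃ T : Finset ℕ, T ⊆ Finset.Icc N (κ * N) ∧ T.card ≤ t ∧
      (∀ s ∈ Finset.Icc N (κ * N), s ∉ T → ∀ Λ : Finset ℕ, Λ ⊆ Finset.Icc N (κ * N) → Λ.card ≤ m →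
        (∀ k ∈ Λ, r k < r s) → ¬ Algebraic (Sum.elim α x) Λ s D (C ^ N)) ∧
      ∀ S : Finset ℕ, S ⊆ Finset.Icc N (κ * N) → S.card ≤ m + 1 → Disjoint S T →
        Independent (Sum.elim α x) S D (C ^ N)) ∧
    (∀ (m κ t D : ℕ) (C : ℝ), ∃ N₀ : ℕ, ∀ N : ℕ, N₀ ≤ N → ∀ x : Fin t → ℂ, AlgebraicIndependent ℚ x →
      ∃ T : Finset ℕ, T ⊆ Finset.Icc N (κ * N) ∧ T.card ≤ t ∧
        ∀ S : Finset ℕ, S ⊆ Finset.Icc N (κ * N) → S.card ≤ m + 1 → Disjoint S T →
        ∀ P : MvPolynomial (Fin t ⊕ S) ℤ, P ≠ 0 → P.totalDegree ≤ D → (∀ m, |((P.coeff m : ℤ) : ℝ)| ≤ C ^ N) →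
          MvPolynomial.aeval (Sum.elim x fun s : S => ((zeta s : ℝ) : ℂ)) P ≠ 0) ∧
    (∀ (m κ D : ℕ) (C : ℝ), ∃ N₀ : ℕ, ∀ N : ℕ, N₀ ≤ N →
      ∃ T : Finset ℕ, T ⊆ Finset.Icc N (κ * N) ∧ T.card ≤ 1 ∧
        ∀ S : Finset ℕ, S ⊆ Finset.Icc N (κ * N) → S.card ≤ m + 1 → Disjoint S T →
        ∀ P : MvPolynomial (Fin 1 ⊕ S) ℤ, P ≠ 0 → P.totalDegree ≤ D → (∀ m, |((P.coeff m : ℤ) : ℝ)| ≤ C ^ N) →
          MvPolynomial.aeval (Sum.elim (fun _ => ((Real.pi : ℝ) : ℂ)) fun s : S => ((zeta s : ℝ) : ℂ)) P ≠ 0) ∧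
    (∀ (S : Finset ℕ) (t : ℕ), t ≤ S.card → ∃ x : Fin t → ℂ, ∀ S' : Finset ℕ, S' ⊆ S →
      Independent x S' 1 1 → S'.card + t ≤ S.card) ∧
    (∃ ω : ℕ → ℕ, Filter.Tendsto ω Filter.atTop Filter.atTop ∧ ∀ N t : ℕ, t ≤ ω N →
      ∀ x : Fin t → ℂ, ∃ T : Finset ℕ, T ⊆ Finset.Icc N (ω N * N) ∧ T.card ≤ t ∧
      ∀ S : Finset ℕ, S ⊆ Finset.Icc N (ω N * N) → S.card ≤ ω N → Disjoint S T →
        Independent x S (ω N) ((ω N : ℝ) ^ N)) := by
  classical
  have hZ : ∀ z : ℂ, IsAlgebraic ℚ z → IsAlgebraic ℤ z := fun z hz => by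
    exact (IsFractionRing.isAlgebraic_iff ℤ ℚ ℂ).2 hz
  have hmov : ∀ {t : ℕ} {x : Fin t → ℂ} {S : Finset ℕ} {D : ℕ} {H : ℝ},
      Independent (Sum.elim (fun i : Fin 0 => (i.elim0 : ℂ)) x) S D H → Independent x S D H := by
    intro t x S D H h P hPD hPC hP0 y
    have h6 := h (MvPolynomial.rename (Sum.map Sum.inr id) P)
      ((MvPolynomial.totalDegree_rename_le _ _).trans hPD)
      (height_rename _ (Sum.inr_injective.sumMap Function.injective_id) hPC) (by
        rw [MvPolynomial.aeval_rename, ← hP0]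
        congr 2
        funext i
        rcases i with i | i <;> rfl) y
    rw [MvPolynomial.aeval_rename] at h6
    rw [← h6]
    congr 2
    funext i
    rcases i with i | i <;> rfl
  have h2 : ∀ (m κ t D : ℕ) (C : ℝ), ∃ N₀ : ℕ, ∀ N : ℕ, N₀ ≤ N → ∀ x : Fin t → ℂ, AlgebraicIndependent ℤ x →
      ∃ T : Finset ℕ, T ⊆ Finset.Icc N (κ * N) ∧ T.card ≤ t ∧
      ∀ S : Finset ℕ, S ⊆ Finset.Icc N (κ * N) → S.card ≤ m + 1 → Disjoint S T →
      ∀ P : MvPolynomial (Fin t ⊕ S) ℤ, P ≠ 0 → P.totalDegree ≤ D → (∀ m, |((P.coeff m : ℤ) : ℝ)| ≤ C ^ N) →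
        MvPolynomial.aeval (Sum.elim x fun s : S => ((zeta s : ℝ) : ℂ)) P ≠ 0 := by
    intro m κ t D C
    obtain ⟨N₀, h0⟩ := main m κ 0 t D C (fun i => i.elim0) (fun i => i.elim0)
    refine ⟨N₀, fun N hN x hx => ?_⟩
    obtain ⟨T, h1, h2, -, h4⟩ := h0 N hN id Function.injective_id x
    refine ⟨T, h1, h2, fun S hS hSc hST P hP hPD hPC hP0 => hP ?_⟩
    exact zero_of_trivial hx (hmov (h4 S hS hSc hST) P hPD hPC hP0)
  refine ⟨fun m κ a t D C α hα => main m κ a t D C α fun i => hZ _ (hα i), ?_, ?_, ?_, ?_⟩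
  · intro m κ t D C
    obtain ⟨N₀, h0⟩ := h2 m κ t D C
    exact ⟨N₀, fun N hN x hx => h0 N hN x (hx.restrictScalars (RingHom.injective_int _))⟩
  · intro m κ D C
    obtain ⟨N₀, h0⟩ := h2 m κ 1 D C
    exact ⟨N₀, fun N hN => h0 N hN _ pi_indep⟩
  · intro S t ht
    obtain ⟨S₀, hS₀, hc⟩ := Finset.exists_subset_card_eq ht
    have e := (Finset.equivFinOfCardEq hc).symm
    refine ⟨fun i => ((zeta (e i) : ℝ) : ℂ), fun S' hS' hI => ?_⟩
    have h2 : Disjoint S' S₀ := by
      rw [Finset.disjoint_left]
      intro s hs hs0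
      set i := e.symm ⟨s, hs0⟩ with hi
      have hei : ((e i : S₀) : ℕ) = s := by
        rw [hi, Equiv.apply_symm_apply]
      have h3 := hI (MvPolynomial.X (Sum.inl i) - MvPolynomial.X (Sum.inr ⟨s, hs⟩)) ?_ ?_ ?_
        (fun _ => ((zeta (e i) : ℝ) : ℂ) + 1)
      · simp at h3
      · refine (MvPolynomial.totalDegree_sub _ _).trans ?_
        rw [MvPolynomial.totalDegree_X, MvPolynomial.totalDegree_X]
        exact le_rfl
      · intro m
        rw [MvPolynomial.coeff_sub, MvPolynomial.coeff_X, MvPolynomial.coeff_X]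
        by_cases h4 : Finsupp.single (Sum.inl i : Fin t ⊕ S') 1 = m
        · have h5 : Finsupp.single (Sum.inr ⟨s, hs⟩ : Fin t ⊕ S') 1 ≠ m := by
            rw [← h4]
            intro h6
            have h7 := (Finsupp.single_left_inj (one_ne_zero)).1 h6
            exact Sum.inr_ne_inl h7
          rw [if_pos h4, if_neg h5]
          norm_num
        · rw [if_neg h4]
          split_ifs <;> norm_num
      · simp [hei]
    have h3 := Finset.card_le_card (Finset.union_subset hS' hS₀)
    rw [Finset.card_union_of_disjoint h2, hc] at h3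
    exact h3
  · set p : ℕ → ℕ → Prop := fun m N => ∀ t : ℕ, t ≤ m → ∀ x : Fin t → ℂ,
      ∃ T : Finset ℕ, T ⊆ Finset.Icc N (m * N) ∧ T.card ≤ t ∧
      ∀ S : Finset ℕ, S ⊆ Finset.Icc N (m * N) → S.card ≤ m → Disjoint S T →
        Independent x S m ((m : ℝ) ^ N) with hp
    have hp0 : ∀ N, p 0 N := by
      intro N t _ x
      refine ⟨∅, Finset.empty_subset _, by simp, fun S _ hS _ => ?_⟩
      have hS0 : S = ∅ := Finset.card_eq_zero.1 (by omega)
      subst hS0
      exact (independent_iff _ _ _ _).2 (IndX_empty _ _ _ _)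
    have hpm : ∀ m, ∃ N₀, ∀ N, N₀ ≤ N → p m N := by
      intro m
      choose N₀ h0 using fun t => main m m 0 t m (m : ℝ) (fun i => i.elim0) (fun i => i.elim0)
      refine ⟨∑ t ∈ Finset.range (m + 1), N₀ t, fun N hN t ht x => ?_⟩
      have h2 : N₀ t ≤ N := (Finset.single_le_sum (f := N₀) (fun _ _ => Nat.zero_le _)
        (Finset.mem_range.2 (by omega))).trans hN
      obtain ⟨T, h3, h4, -, h5⟩ := h0 t N h2 id Function.injective_id x
      exact ⟨T, h3, h4, fun S hS hSc hST => hmov (h5 S hS (by omega) hST)⟩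
    refine ⟨fun N => Nat.findGreatest (fun m => p m N) N, ?_, fun N t ht x => ?_⟩
    · refine Filter.tendsto_atTop.2 fun m => ?_
      obtain ⟨N₀, h2⟩ := hpm m
      refine Filter.eventually_atTop.2 ⟨max m N₀, fun N hN => ?_⟩
      exact Nat.le_findGreatest (le_of_max_le_left hN) (h2 N (le_of_max_le_right hN))
    · have h2 : p (Nat.findGreatest (fun m => p m N) N) N :=
        Nat.findGreatest_spec (P := fun m => p m N) (Nat.zero_le N) (hp0 N)
      exact h2 t ht x

end Pool.Agent.Results.MP_a89d6d_nt.DeletionOverConstants
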