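import Pool.Agent.Y760.PZ.Vec
import Pool.Agent.TH456.TM.Inst

/-!
# `π` and the zeta values at large comparable arguments satisfy no polynomial relation of bounded
degree and exponentially bounded height

Let `k` and `d` be natural numbers and `r_1, ..., r_k ≥ 1` integers. There are `ε > 0`, `B > 1` and
`C > 1` such that for all large `n` and all distinct `s_1, ..., s_k` with
`r_i n ≤ s_i ≤ (r_i + ε) n` every nonzero polynomial `P ∈ ℤ[X_0, ..., X_k]` of total degree at most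
`d` with coefficients at most `C ^ n` satisfies

`|P(π, ζ(s_1), ..., ζ(s_k))| > B ^ (-n)`.

The same holds for the combinations `∑_j θ_j P_j(ζ(s_1), ..., ζ(s_k))` for every finite family
`θ_j` of real numbers with a measure of linear independence of polynomial type.

The proof in the library (`Pool/Agent/Y760/PZ`) compares the Dirichlet series of the monomials in the
`ζ(s_i)`; for `π` it uses a transcendence measure (`Pool/Agent/TH456/TM`).
-/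

set_option autoImplicit false

namespace Pool.Agent.Results.MP_a89d6d_nt.PiAndLargeZetaValues

open Finset

/-- the value `ζ(s)` of the Riemann zeta function -/
noncomputable def zeta (s : ℕ) : ℝ := ∑' m : ℕ, 1 / ((m : ℝ) + 1) ^ s

/-- a measure of linear independence of polynomial type -/
def HasMeasure {ι : Type} [Fintype ι] (θ : ι → ℝ) : Prop :=
  ∃ κ c : ℝ, 0 ≤ κ ∧ 0 < c ∧ ∀ q : ι → ℤ, q ≠ 0 → ∀ H : ℝ, 1 ≤ H → (∀ i, |(q i : ℝ)| ≤ H) →
    c ≤ H ^ κ * |∑ i, (q i : ℝ) * θ i|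

/-- The arguments `s_i` are distinct and `r_i n ≤ s_i ≤ (r_i + ε) n`. -/
def Near {k : ℕ} (r : Fin k → ℕ) (ε : ℝ) (n : ℕ) (s : Fin k → ℕ) : Prop :=
  Function.Injective s ∧ ∀ i, r i * n ≤ s i ∧ (s i : ℝ) ≤ (r i + ε) * n

open Pool.Agent.TH883.Zg Pool.Agent.Y760.PZ in
lemma general {ι : Type} [Fintype ι] (θ : ι → ℝ) (hθ : HasMeasure θ) (k d : ℕ) (r : Fin k → ℕ)
    (hr : ∀ i, 1 ≤ r i) :
    ∃ ε B C : ℝ, 0 < ε ∧ 1 < B ∧ 1 < C ∧ ∃ n0 : ℕ, ∀ n : ℕ, n0 ≤ n → ∀ s : Fin k → ℕ,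
      Near r ε n s → ∀ P : ι → MvPolynomial (Fin k) ℤ, P ≠ 0 → (∀ j, (P j).totalDegree ≤ d) →
      (∀ j m, |(((P j).coeff m : ℤ) : ℝ)| ≤ C ^ n) →
      (B ^ n)⁻¹ < |∑ j, θ j * MvPolynomial.aeval (fun i => zeta (s i)) (P j)| := by
  classical
  obtain ⟨ε, B, C, hε, hB, hC, n0, h⟩ := zeta_v θ hθ r hr d
  refine ⟨ε, B, C, hε, hB, hC, n0, fun n hn s hs P hP hd hPC => ?_⟩
  have h1 := h n hn s hs.1 hs.2 (fun e j => (P j).coeff (exq e)) (by
    intro h0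
    refine hP ?_
    funext j
    by_contra hj
    obtain ⟨m, hm⟩ := MvPolynomial.ne_zero_iff.1 hj
    obtain ⟨e, he⟩ := exq_surj (hd j) (MvPolynomial.mem_support_iff.2 hm)
    exact hm (by rw [← he]; exact congrFun (congrFun h0 e) j)) (fun e j => hPC j _)
  have h2 : ∑ j, θ j * MvPolynomial.aeval (fun i => zeta (s i)) (P j) =
      ∑ e : Fin k → Fin (d + 1), (∑ i, (((P i).coeff (exq e) : ℤ) : ℝ) * θ i) *
        ∏ i, (∑' m : ℕ, 1 / ((m : ℝ) + 1) ^ (s i)) ^ ((e i : Fin (d + 1)) : ℕ) := by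
    have h3 : ∀ j, θ j * MvPolynomial.aeval (fun i => zeta (s i)) (P j) =
        ∑ e : Fin k → Fin (d + 1), (((P j).coeff (exq e) : ℤ) : ℝ) * θ j *
          ∏ i, (∑' m : ℕ, 1 / ((m : ℝ) + 1) ^ (s i)) ^ ((e i : Fin (d + 1)) : ℕ) := by
      intro j
      rw [eval_exq' (hd j), mul_sum]
      refine sum_congr rfl fun e _ => ?_
      unfold zeta
      ring
    rw [sum_congr rfl fun j _ => h3 j, sum_comm]
    refine sum_congr rfl fun e _ => ?_
    rw [sum_mul]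
  rw [h2]
  exact h1

open Pool.Agent.TH883.Zg Pool.Agent.Y760.PZ in
lemma pi_case (k d : ℕ) (r : Fin k → ℕ) (hr : ∀ i, 1 ≤ r i) :
    ∃ ε B C : ℝ, 0 < ε ∧ 1 < B ∧ 1 < C ∧ ∃ n0 : ℕ, ∀ n : ℕ, n0 ≤ n → ∀ s : Fin k → ℕ,
      Near r ε n s → ∀ P : MvPolynomial (Fin (k + 1)) ℤ, P ≠ 0 → P.totalDegree ≤ d →
      (∀ m, |((P.coeff m : ℤ) : ℝ)| ≤ C ^ n) →
      (B ^ n)⁻¹ < |MvPolynomial.aeval (Fin.cons Real.pi fun i => zeta (s i) : Fin (k + 1) → ℝ) P| := by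
  classical
  obtain ⟨ε, B, C, hε, hB, hC, n0, h⟩ := zeta_v (fun i : Fin (d + 1) => Real.pi ^ (i : ℕ))
    (LM_pow Pool.Agent.TH456.TM.measT_pi d) r hr d
  refine ⟨ε, B, C, hε, hB, hC, n0, fun n hn s hs P hP hd hPC => ?_⟩
  have h1 := h n hn s hs.1 hs.2
    (fun e j => P.coeff (exq (d := d) (Fin.cons j e : Fin (k + 1) → Fin (d + 1)))) (by
    intro h0
    obtain ⟨m, hm⟩ := MvPolynomial.ne_zero_iff.1 hP
    obtain ⟨e, he⟩ := exq_surj hd (MvPolynomial.mem_support_iff.2 hm)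
    refine hm ?_
    have h3 := congrFun (congrFun h0 (Fin.tail e)) (e 0)
    simp only [Fin.cons_self_tail] at h3
    rw [← he]
    exact h3) (fun e j => hPC _)
  have h2 : MvPolynomial.aeval (Fin.cons Real.pi fun i => zeta (s i) : Fin (k + 1) → ℝ) P =
      ∑ e : Fin k → Fin (d + 1), (∑ j : Fin (d + 1),
        ((P.coeff (exq (d := d) (Fin.cons j e : Fin (k + 1) → Fin (d + 1))) : ℤ) : ℝ) *
          Real.pi ^ (j : ℕ)) *
        ∏ i, (∑' m : ℕ, 1 / ((m : ℝ) + 1) ^ (s i)) ^ ((e i : Fin (d + 1)) : ℕ) := by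
    rw [eval_exq' hd]
    rw [← (Fin.consEquiv fun _ : Fin (k + 1) => Fin (d + 1)).sum_comp, Fintype.sum_prod_type,
      sum_comm]
    refine sum_congr rfl fun e _ => ?_
    rw [sum_mul]
    refine sum_congr rfl fun j _ => ?_
    rw [Fin.prod_univ_succ]
    simp only [Fin.consEquiv, Equiv.coe_fn_mk, Fin.cons_zero, Fin.cons_succ]
    unfold zeta
    ring
  rw [h2]
  exact h1

/-- **`π` and zeta values at large comparable arguments.** -/
theorem result :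
    -- `π` and the values `ζ(s_i)`
    (∀ (k d : ℕ) (r : Fin k → ℕ), (∀ i, 1 ≤ r i) →
      ∃ ε B C : ℝ, 0 < ε ∧ 1 < B ∧ 1 < C ∧ ∃ n0 : ℕ, ∀ n : ℕ, n0 ≤ n → ∀ s : Fin k → ℕ,
        Near r ε n s → ∀ P : MvPolynomial (Fin (k + 1)) ℤ, P ≠ 0 → P.totalDegree ≤ d →
        (∀ m, |((P.coeff m : ℤ) : ℝ)| ≤ C ^ n) →
        (B ^ n)⁻¹ <
          |MvPolynomial.aeval (Fin.cons Real.pi fun i => zeta (s i) : Fin (k + 1) → ℝ) P|) ∧
    -- coefficients in the span of any family with a measure of linear independence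
    (∀ (ι : Type) [Fintype ι] (θ : ι → ℝ), HasMeasure θ →
      ∀ (k d : ℕ) (r : Fin k → ℕ), (∀ i, 1 ≤ r i) →
      ∃ ε B C : ℝ, 0 < ε ∧ 1 < B ∧ 1 < C ∧ ∃ n0 : ℕ, ∀ n : ℕ, n0 ≤ n → ∀ s : Fin k → ℕ,
        Near r ε n s → ∀ P : ι → MvPolynomial (Fin k) ℤ, P ≠ 0 → (∀ j, (P j).totalDegree ≤ d) →
        (∀ j m, |(((P j).coeff m : ℤ) : ℝ)| ≤ C ^ n) →
        (B ^ n)⁻¹ < |∑ j, θ j * MvPolynomial.aeval (fun i => zeta (s i)) (P j)|) :=
  ⟨fun k d r hr => pi_case k d r hr, fun _ _ θ hθ k d r hr => general θ hθ k d r hr⟩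

end Pool.Agent.Results.MP_a89d6d_nt.PiAndLargeZetaValues
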