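import Pool.Agent.U534.FreeSeq
import Pool.Agent.H340R2.LW

/-!
# `π` and every sequence of zeta values outside of predictable exceptional sets, over arbitrary constants

We consider infinite sequences `s_0, s_1, …` of natural numbers (for instance odd ones). There are numbers `N_0, N_1, …`,
which do not depend on anything, and for all complex numbers `z_0, z_1, …` (for instance `z_0 = π`) there are exceptional sets
`E_j(s_0, …, s_(j-1))`, which depend only on the numbers chosen before, with at most `2 j` elements in each interval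
`[M, j M]`, `M ≥ N_j` (so `E_j` has `O(log X)` elements up to `X`), with the following property. Let `s` be ANY sequence with
`s_j ∉ E_j(s_0, …, s_(j-1))` for `j ≥ j₀`.

* All relations of degree at most `D` between `z_0, …, z_(i-1)` and the values `ζ(s_a)`, `a ∈ {a_1 < … < a_k}`, `a_1 ≥ max(j₀, D, i)`,
  with integer coefficients of absolute value at most `a ^ (s_a)` for all these `a`, are trivial: they hold identically in the
  `ζ(s_a)`. If `z_0, …, z_(i-1)` are algebraically independent, then there is no such relation except `0`.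
* For `π`: the numbers `π`, `ζ(s_(a_1)), …, ζ(s_(a_k))` satisfy no nonzero relation of degree at most `D` with such
  coefficients.
* Let `F` be any countable set of complex numbers, for instance the algebraic closure of the field generated by `π` and ALL zeta
  values `ζ(s)`. There are such sets `E_j` so that for every nonzero polynomial `P` in `n` variables with coefficients in
  `F`, of any degree, there is `l`, which does not depend on the sequence, such that `P(ζ(s_(a_1)), …, ζ(s_(a_n))) ≠ 0` for all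
  `a_1 < … < a_n` with `a_1 ≥ max(l, j₀)`.

The proof uses the theorem of helper553 on zeta values with arguments in `[M, κ M]` over arbitrary constants
(`Pool.Agent.U553.DL.delZ`, the hand-in `MP_a89d6d_nt.DeletionOverConstants`, on top of the starting library): of `t + 1` zeta
values one is free over any `t` constants. Here the earlier zeta values are constants for the later ones, the numbers
are eliminated one after the other, and relations between zeta values with arguments of very different sizes, in any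
order, are treated.
-/

set_option autoImplicit false

namespace Pool.Agent.Results.MP_a89d6d_nt.PredictableSequences

open Pool.Agent.U534.FreeSeq MvPolynomial

/-- `ζ(s) = ∑_{m ≥ 1} 1 / m ^ s` -/
noncomputable def zeta (s : ℕ) : ℝ := ∑' m : ℕ, 1 / ((m : ℝ) + 1) ^ s

/-- `E_j(s_0, …, s_(j-1))` has at most `2 j` elements in each interval `[M, j M]`, `M ≥ N_j`. -/
def Few (N : ℕ → ℕ) (E : ∀ j, (Fin j → ℕ) → Set ℕ) : Prop :=
  ∀ (j : ℕ) (τ : Fin j → ℕ) (M : ℕ), N j ≤ M → (E j τ ∩ Set.Icc M (j * M)).ncard ≤ 2 * j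

/-- `s_j ∉ E_j(s_0, …, s_(j-1))` for `j ≥ j₀` -/
def Avoids (E : ∀ j, (Fin j → ℕ) → Set ℕ) (j₀ : ℕ) (s : ℕ → ℕ) : Prop := ∀ j, j₀ ≤ j → s j ∉ E j fun a => s a

section proofs

lemma mz_eq (s : ℕ) : Pool.Agent.Y760.ZG.mz [s] = zeta s := by
  rw [Pool.Agent.Y760.ZG.mz, zeta]
  refine tsum_congr fun m => ?_
  rw [Pool.Agent.Y760.ZG.hr_nil]
  push_cast
  rfl

/-- the zeta values as complex numbers -/
noncomputable def zc (s : ℕ) : ℂ := ((zeta s : ℝ) : ℂ)

/-- the exceptional sets -/
def Ex (z : ℕ → ℂ) (j : ℕ) (τ : Fin j → ℕ) : Set ℕ := {s | ¬ Free (stage zc z τ) (zc s) j ((j : ℝ) ^ s)}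

theorem few_ex : ∃ N : ℕ → ℕ, ∀ z : ℕ → ℂ, Few N (Ex z) := by
  classical
  choose N hN using fun j : ℕ => Pool.Agent.U553.DL.delZ (j + j + 1) j 0 (j + j) j ((j : ℝ) ^ j) (fun i => i.elim0)
    (fun i => i.elim0)
  refine ⟨N, fun z j τ M hM => ?_⟩
  by_contra hcon
  push Not at hcon
  set T : Finset ℕ := (Finset.Icc M (j * M)).filter fun s => s ∈ Ex z j τ with hT
  have hTc : (E : Set ℕ) → E = Ex z j τ ∩ Set.Icc M (j * M) → E.ncard = T.card := by
    rintro E rfl
    rw [← Set.ncard_coe_finset]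
    congr 1
    ext s
    simp only [hT, Finset.coe_filter, Finset.mem_Icc, Set.mem_inter_iff, Set.mem_Icc, Set.mem_setOf_eq]
    tauto
  rw [hTc _ rfl] at hcon
  obtain ⟨S, hS1, hS2⟩ := Finset.exists_subset_card_eq (show j + j + 1 ≤ T.card by omega)
  obtain ⟨S', h1, h2, h3⟩ := hN j M hM (fun b => stage zc z τ (finSumFinEquiv.symm b)) S hS2.le (fun s hs => by
    have := (Finset.mem_filter.1 (hS1 hs)).1
    exact Finset.mem_Icc.1 this)
  obtain ⟨s, hs⟩ : S'.Nonempty := by
    rw [← Finset.card_pos]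
    omega
  have hsT := Finset.mem_filter.1 (hS1 (h1 hs))
  have hsM := Finset.mem_Icc.1 hsT.1
  refine hsT.2 fun P hPD hPH hP0 y => ?_
  set g : Option (Fin j ⊕ Fin j) → (Fin 0 ⊕ Fin (j + j)) ⊕ S' := fun o =>
    o.elim (Sum.inr ⟨s, hs⟩) fun v => Sum.inl (Sum.inr (finSumFinEquiv v)) with hg
  have hgi : Function.Injective g := by
    rintro (_ | v) (_ | v') h
    · rfl
    · simp [hg] at h
    · simp [hg] at h
    · have h4 : finSumFinEquiv v = finSumFinEquiv v' := by simpa [hg] using h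
      rw [finSumFinEquiv.injective h4]
  have hev : ∀ y : S' → ℂ, aeval (Sum.elim (Sum.elim (fun i : Fin 0 => i.elim0)
      fun b => stage zc z τ (finSumFinEquiv.symm b)) y) (rename g P) =
        aeval (fun o => o.elim (y ⟨s, hs⟩) (stage zc z τ)) P := by
    intro y
    rw [aeval_rename]
    congr 2
    funext o
    rcases o with _ | v
    · rfl
    · simp [hg]
  have hH : ((j : ℝ) ^ s) ≤ (((j : ℝ) ^ j) ^ M) := by
    rcases Nat.eq_zero_or_pos j with rfl | hj
    · simp only [Nat.cast_zero, pow_zero, one_pow]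
      exact pow_le_one₀ le_rfl zero_le_one
    · rw [← pow_mul]
      exact pow_le_pow_right₀ (by exact_mod_cast hj) hsM.2
  have h4 := h3 (rename g P) ((totalDegree_rename_le _ _).trans hPD)
    (Pool.Agent.U553.DL.height_rename g hgi fun m => (hPH m).trans hH) (by
      have h5 := hev fun s : S' => ((Pool.Agent.Y760.ZG.mz [(s : ℕ)] : ℝ) : ℂ)
      rw [h5, ← hP0]
      congr 2
      funext o
      rcases o with _ | v
      · show ((Pool.Agent.Y760.ZG.mz [s] : ℝ) : ℂ) = zc s
        rw [mz_eq]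
        rfl
      · rfl) (fun _ => y)
  have h5 := hev fun _ => y
  rw [h5] at h4
  exact h4

theorem free_of {z : ℕ → ℂ} {j₀ : ℕ} {s : ℕ → ℕ} (h : Avoids (Ex z) j₀ s) (j : ℕ) (hj : j₀ ≤ j) :
    Free (stage zc z fun a : Fin j => s a) (zc (s j)) j ((j : ℝ) ^ s j) := by
  by_contra hcon
  exact h j hj hcon

theorem closure_countable :
    {x : ℂ | IsAlgebraic (Subfield.closure (insert (Real.pi : ℂ) (Set.range fun s => ((zeta s : ℝ) : ℂ)))) x}.Countable := by
  have h0 : (insert (Real.pi : ℂ) (Set.range fun s => ((zeta s : ℝ) : ℂ))).Countable := (Set.countable_range _).insert _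
  have h1 : Countable (Subfield.closure (insert (Real.pi : ℂ) (Set.range fun s => ((zeta s : ℝ) : ℂ)))) := by
    rw [← Cardinal.mk_le_aleph0_iff]
    refine (Subfield.cardinalMk_closure_le_max _).trans ?_
    exact max_le h0.le_aleph0 le_rfl
  exact Algebraic.countable _ _

lemma pi_indep : AlgebraicIndependent ℤ (fun _ : Fin 1 => (Real.pi : ℂ)) := by
  have h1 : Transcendental ℤ (Real.pi : ℂ) := fun h =>
    Pool.Agent.H340R2.LW.transcendental_pi_complex (h.extendScalars (RingHom.injective_int _))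
  exact (algebraicIndependent_unique_type_iff (R := ℤ) (x := fun _ : Fin 1 => (Real.pi : ℂ))).2 h1

end proofs

/-- **Main result.** -/
theorem result :
    -- the algebraic closure of the field generated by `π` and all zeta values is countable
    {x : ℂ | IsAlgebraic (Subfield.closure (insert (Real.pi : ℂ) (Set.range fun s => ((zeta s : ℝ) : ℂ)))) x}.Countable ∧
    ∃ N : ℕ → ℕ,
      -- arbitrary constants
      (∀ z : ℕ → ℂ, ∃ E : ∀ j, (Fin j → ℕ) → Set ℕ, Few N E ∧ ∀ (j₀ : ℕ) (s : ℕ → ℕ), Avoids E j₀ s →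
        ∀ (D i k : ℕ) (a : Fin k → ℕ), StrictMono a → (∀ l, j₀ ≤ a l ∧ D ≤ a l ∧ i ≤ a l) →
        ∀ G : MvPolynomial (Fin i ⊕ Fin k) ℤ, G.totalDegree ≤ D →
          (∀ l m, |((G.coeff m : ℤ) : ℝ)| ≤ (a l : ℝ) ^ s (a l)) →
          aeval (Sum.elim (fun b : Fin i => z b) fun l => ((zeta (s (a l)) : ℝ) : ℂ)) G = 0 →
            (∀ y : Fin k → ℂ, aeval (Sum.elim (fun b : Fin i => z b) y) G = 0) ∧
            (AlgebraicIndependent ℤ (fun b : Fin i => z b) → G = 0)) ∧
      -- `π`
      (∃ E : ∀ j, (Fin j → ℕ) → Set ℕ, Few N E ∧ ∀ (j₀ : ℕ) (s : ℕ → ℕ), Avoids E j₀ s →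
        ∀ (D k : ℕ) (a : Fin k → ℕ), StrictMono a → (∀ l, j₀ ≤ a l ∧ D ≤ a l ∧ 1 ≤ a l) →
        ∀ G : MvPolynomial (Option (Fin k)) ℤ, G ≠ 0 → G.totalDegree ≤ D →
          (∀ l m, |((G.coeff m : ℤ) : ℝ)| ≤ (a l : ℝ) ^ s (a l)) →
          aeval (fun o => o.elim (Real.pi : ℝ) fun l => zeta (s (a l))) G ≠ 0) ∧
      -- countable sets of constants
      ∀ F : Set ℂ, F.Countable → ∃ E : ∀ j, (Fin j → ℕ) → Set ℕ, Few N E ∧
        ∀ (n : ℕ) (P : MvPolynomial (Fin n) ℂ), P ≠ 0 → (∀ m, P.coeff m ∈ F) → ∃ l : ℕ, ∀ (j₀ : ℕ) (s : ℕ → ℕ), Avoids E j₀ s →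
          ∀ a : Fin n → ℕ, StrictMono a → (∀ i, j₀ ≤ a i ∧ l ≤ a i) →
            aeval (fun i => ((zeta (s (a i)) : ℝ) : ℂ)) P ≠ 0 := by
  classical
  obtain ⟨N, hN⟩ := few_ex
  have hA : ∀ z : ℕ → ℂ, ∀ (j₀ : ℕ) (s : ℕ → ℕ), Avoids (Ex z) j₀ s →
        ∀ (D i k : ℕ) (a : Fin k → ℕ), StrictMono a → (∀ l, j₀ ≤ a l ∧ D ≤ a l ∧ i ≤ a l) →
        ∀ G : MvPolynomial (Fin i ⊕ Fin k) ℤ, G.totalDegree ≤ D →
          (∀ l m, |((G.coeff m : ℤ) : ℝ)| ≤ (a l : ℝ) ^ s (a l)) →
          aeval (Sum.elim (fun b : Fin i => z b) fun l => ((zeta (s (a l)) : ℝ) : ℂ)) G = 0 →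
            (∀ y : Fin k → ℂ, aeval (Sum.elim (fun b : Fin i => z b) y) G = 0) ∧
            (AlgebraicIndependent ℤ (fun b : Fin i => z b) → G = 0) := by
    intro z j₀ s hs D i k a ha hal G hG hH h0
    have h1 := seq_gen zc z s (fun j => (j : ℝ) ^ s j) j₀ (free_of hs) D i k a ha hal G hG hH h0
    exact ⟨h1, fun hz => Pool.Agent.U553.DL.zero_of_trivial hz h1⟩
  refine ⟨closure_countable, N, fun z => ⟨Ex z, hN z, hA z⟩, ?_, fun F hF => ?_⟩
  · refine ⟨Ex fun _ => (Real.pi : ℂ), hN _, fun j₀ s hs D k a ha hal G hG0 hG hH h0 => hG0 ?_⟩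
    set g : Option (Fin k) → Fin 1 ⊕ Fin k := fun o => o.elim (Sum.inl 0) Sum.inr with hg
    have hgi : Function.Injective g := by
      rintro (_ | l) (_ | l') h
      · rfl
      · simp [hg] at h
      · simp [hg] at h
      · have h4 : l = l' := by simpa [hg] using h
        rw [h4]
    have h1 := (hA (fun _ => (Real.pi : ℂ)) j₀ s hs D 1 k a ha hal (rename g G) ((totalDegree_rename_le _ _).trans hG)
      (fun l => Pool.Agent.U553.DL.height_rename g hgi (hH l)) (by
        rw [aeval_rename]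
        have h2 : (Sum.elim (fun _ : Fin 1 => (Real.pi : ℂ)) fun l => ((zeta (s (a l)) : ℝ) : ℂ)) ∘ g =
            fun o : Option (Fin k) => ((o.elim (Real.pi : ℝ) fun l => zeta (s (a l)) : ℝ) : ℂ) := by
          funext o
          rcases o with _ | l <;> rfl
        rw [h2]
        have h3 := congrArg (fun x : ℝ => (x : ℂ)) h0
        rw [← Complex.ofReal_zero, ← h3]
        have h4 := MvPolynomial.aeval_algebraMap_apply (R := ℤ) (A := ℝ) ℂ
          (fun o : Option (Fin k) => (o.elim (Real.pi : ℝ) fun l => zeta (s (a l)) : ℝ)) G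
        exact h4)).2 pi_indep
    exact rename_injective g hgi (by rw [h1, map_zero])
  · obtain ⟨z, hz⟩ := (hF.insert 0).exists_eq_range (Set.insert_nonempty _ _)
    refine ⟨Ex z, hN z, fun n P hP hPF => ?_⟩
    obtain ⟨l, hl⟩ := seq_count zc z P hP (fun m => by
      have h1 : P.coeff m ∈ insert (0 : ℂ) F := Set.mem_insert_of_mem _ (hPF m)
      rw [hz] at h1
      exact h1)
    refine ⟨l, fun j₀ s hs a ha hal => ?_⟩
    exact hl s (fun j => (j : ℝ) ^ s j) j₀ (free_of hs) (fun j hj => one_le_pow₀ (by exact_mod_cast hj)) a ha hal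

end Pool.Agent.Results.MP_a89d6d_nt.PredictableSequences
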