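import Pool.Agent.U456.IZ.Gen
import Pool.Agent.U456.IZ.Tup

/-!
# Tuples of zeta values and of tails of their integrals

For an integer `k ≥ 2`, `ω = exp(2πi/k)` and `x ≥ 0` let
`R_k(x) = (-1)^k / k! ∫ (∑_j ω^j log t_j)^k exp(-∑_j t_j) dt`, the integral being over the points of the
octant `(0, ∞)^k` with `max t_j ≥ x`. This number is real and `R_k(0) = ζ(k)`, the integral over the
octant.

Call a field `F` of real numbers simultaneously Liouville if for any finitely many elements
`x_1, …, x_m` of `F` and any `w` there are arbitrarily large `q` with `‖q x_i‖ < q ^ (-w)` for all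
`i`. The field `ℚ` is one, and there are uncountable ones, see the statement.

Over every such field `F` and for every finite set `K` of integers `k ≥ 2` (for instance
`K = {2, 3, 5, 7, …, 2c + 1}`) the following is proved for the tuples `(R_k(x))_{k ∈ K}`, the tuple with
`x = 0` being `(ζ(k))_{k ∈ K}`.

* There are at most `|K|` rational `x ≥ 0` for which the tuple is algebraically dependent over `F(e)`.
  So if the numbers `π, ζ(3), ζ(5), …, ζ(2c + 1)` are algebraically dependent over `F(e)`, then
  the tuples `(R_k(x))` with `k = 2, 3, 5, …, 2c + 1` are algebraically independent over `F(e)` for all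
  positive rational `x` with at most `c` exceptions.
* For every finite nonempty set `X` of rational numbers `x ≥ 0` the field generated over `F` by `e` and
  the numbers `R_k(x)`, `k ∈ K`, `x ∈ X`, has transcendence degree at least `|K| (|X| - 1) + 1`.

The start result `IncompleteZetaValues` of `MP_48b3e2_nt` has the case of one `k` (at most one `x` with
`R_k(x)` algebraic) over `F = ℚ`.

The proof uses the formula of `Pool.Agent.R352.Q` for `ζ(k) - R_k(x)` as a polynomial in values of
E-functions, the measure of algebraic independence for these values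
(`Pool.Agent.N743.SS.measM_EE`, a quantitative form of Shidlovskii's theorem), the file
`Pool/Agent/U456/IZ/Liou.lean` (a polynomial measure of algebraic independence gives algebraic
independence over every simultaneously Liouville field) and the matroid of algebraic independence
over `F`.
-/

set_option autoImplicit false

namespace Pool.Agent.Results.MP_a89d6d_nt.TailTuples

open Filter Topology MeasureTheory Pool.Agent.Q163.LE

/-- `(∑_j ω^j log t_j)^k exp(-∑_j t_j)`, `ω = exp(2πi/k)` -/
noncomputable def integrand (k : ℕ) (t : Fin k → ℝ) : ℂ :=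
  (∑ j : Fin k, Complex.exp (2 * Real.pi * Complex.I / k) ^ (j : ℕ) * (Real.log (t j) : ℂ)) ^ k *
    ((Real.exp (-∑ j, t j) : ℝ) : ℂ)

/-- the points of the octant with a coordinate at least `x` -/
def rest (k : ℕ) (x : ℝ) : Set (Fin k → ℝ) := {t | (∀ j, 0 < t j) ∧ ∃ j, x ≤ t j}

/-- `R_k(x)`, as a complex number -/
noncomputable def tail (k : ℕ) (x : ℝ) : ℂ :=
  (-1) ^ k / k.factorial * ∫ t in rest k x, integrand k t

/-- `R_k(x)`, as a real number -/
noncomputable def R (k : ℕ) (x : ℝ) : ℝ := (tail k x).re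

/-- the field generated by all real numbers `x` such that, for some base `b`,
`phrases b x N / log N` tends to `0` as `N` tends to infinity in `S` -/
noncomputable def field (S : Set ℕ) : Subfield ℝ := Subfield.closure {x : ℝ | ∃ b : ℕ, 2 ≤ b ∧
  Tendsto (fun N : ℕ => (phrases b x N : ℝ) / Real.log N) (atTop ⊓ 𝓟 S) (𝓝 0)}

/-- the numbers `u i` are algebraically independent over `F(e)`, equivalently over the ring
`F[e]` -/
def IndependentOverFE (F : Subfield ℝ) {ι : Type} (u : ι → ℝ) : Prop :=
  AlgebraicIndependent (Algebra.adjoin F ({Real.exp 1} : Set ℝ)) u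

/-- **Tuples of zeta values `ζ(k) = R_k(0)` and of tails `R_k(x)`.** -/
theorem result :
    -- examples of simultaneously Liouville fields
    (∀ (T : ℕ → ℝ) (hT : Tendsto T atTop atTop), SimLiouville (ApField T hT)) ∧
    (∀ S : Set ℕ, S.Infinite → SimLiouville (field S)) ∧
    -- the numbers `R_k(x)`
    (∀ k : ℕ, 2 ≤ k → (∀ x : ℝ, 0 ≤ x → tail k x = (R k x : ℂ)) ∧
      R k 0 = ∑' n : ℕ, 1 / ((n : ℝ) + 1) ^ k) ∧
    ∀ (F : Subfield ℝ) (K : Finset ℕ), SimLiouville F → (∀ k ∈ K, 2 ≤ k) →
      -- (1) at most `|K|` exceptional tuples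
      {x : ℚ | 0 ≤ x ∧ ¬ IndependentOverFE F (fun k : K => R k x)}.encard ≤ K.card ∧
      -- (2) the transcendence degree
      (∀ X : Finset ℚ, X.Nonempty → (∀ x ∈ X, 0 ≤ x) →
        ((K.card * (X.card - 1) + 1 : ℕ) : Cardinal) ≤ Algebra.trdeg F
          (IntermediateField.adjoin F
            ({Real.exp 1} ∪ {z : ℝ | ∃ k ∈ K, ∃ x ∈ X, z = R k (x : ℝ)}))) := by
  have hR : ∀ k : ℕ, 2 ≤ k → ∀ x : ℚ, 0 ≤ x → R k (x : ℝ) = Pool.Agent.U456.IZ.Tl k x := by
    intro k hk x hx
    rcases hx.eq_or_lt with h0 | h0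
    · rw [← h0, Rat.cast_zero, Pool.Agent.U456.IZ.Tl, if_pos rfl]
      exact Pool.Agent.U456.IZ.Rg_zero hk
    · rw [Pool.Agent.U456.IZ.Tl, if_neg h0.ne']
      exact Pool.Agent.U456.IZ.Rg_pos hk (by exact_mod_cast h0)
  refine ⟨sim_apField, sim_lz,
    fun k hk => ⟨fun x hx => Pool.Agent.U456.IZ.tailk_real hk hx,
    Pool.Agent.U456.IZ.Rg_zero hk⟩, fun F K hF hK => ⟨?_, ?_⟩⟩
  · by_contra hcon
    rw [not_le] at hcon
    have hcon' : ((K.card + 1 : ℕ) : ℕ∞) ≤
        {x : ℚ | 0 ≤ x ∧ ¬ IndependentOverFE F (fun k : K => R k x)}.encard := by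
      push_cast
      exact Order.add_one_le_of_lt hcon
    obtain ⟨t, ht, htc⟩ := Set.exists_subset_encard_eq hcon'
    have hfin : t.Finite := by
      rw [← Set.encard_lt_top_iff, htc]
      exact ENat.natCast_lt_top _
    obtain ⟨X, rfl⟩ : ∃ X : Finset ℚ, (X : Set ℚ) = t := ⟨hfin.toFinset, hfin.coe_toFinset⟩
    rw [Set.encard_coe_eq_coe_finsetCard] at htc
    have hc : X.card = K.card + 1 := by exact_mod_cast htc
    have h1 := Pool.Agent.U456.IZ.few_exceptions hF K hK X
      (fun x hx => (ht (Finset.mem_coe.2 hx)).1) (fun x hx hai => by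
        refine (ht (Finset.mem_coe.2 hx)).2 ?_
        rw [IndependentOverFE]
        have h2 := (Pool.Agent.U456.IZ.tup_iff hF K x).2 hai
        have h3 : (fun k : K => R k (x : ℝ)) = fun k : K => Pool.Agent.U456.IZ.Tl k x := by
          funext k
          exact hR k (hK k k.2) x (ht (Finset.mem_coe.2 hx)).1
        rw [h3]
        exact h2)
    omega
  · intro X hne hX
    have h1 := Pool.Agent.U456.IZ.tuples_trdeg hF K hK X hX hne
    have h2 : {z : ℝ | ∃ k ∈ K, ∃ x ∈ X, z = R k (x : ℝ)} =
        {z : ℝ | ∃ k ∈ K, ∃ x ∈ X, z = Pool.Agent.U456.IZ.Tl k x} := by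
      ext z
      constructor
      · rintro ⟨k, hk, x, hx, h⟩
        exact ⟨k, hk, x, hx, by rw [h, hR k (hK k hk) x (hX x hx)]⟩
      · rintro ⟨k, hk, x, hx, h⟩
        exact ⟨k, hk, x, hx, by rw [h, hR k (hK k hk) x (hX x hx)]⟩
    rw [h2]
    exact h1

end Pool.Agent.Results.MP_a89d6d_nt.TailTuples
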